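import Pool.Agent.Q152.CC.Stm3

/-!
# Project CC of helper152, job FAM: the family has a positive proportion of members
-/

set_option autoImplicit false

namespace Pool.Agent.Q38.CC

open Finset Pool.Agent.Y692.QS Pool.Agent.Q152.CC

/-- inert primes -/
theorem inert {p : ℕ} (hp : p.Prime) (h2 : p % 3 = 2) {x y : ℤ}
    (h : (p : ℤ) ∣ x ^ 2 - x * y + y ^ 2) : (p : ℤ) ∣ x ∧ (p : ℤ) ∣ y := by
  haveI : Fact p.Prime := ⟨hp⟩
  obtain ⟨k, hk⟩ : ∃ k, p = 3 * k + 2 := ⟨p / 3, by omega⟩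
  have cub : ∀ a : ZMod p, (a ^ 3) ^ (2 * k + 1) = a := by
    intro a
    rw [← pow_mul]
    by_cases ha : a = 0
    · subst ha
      rw [zero_pow (by omega)]
    · have h1 : 3 * (2 * k + 1) = (p - 1) * 2 + 1 := by omega
      rw [h1, pow_succ, pow_mul, ZMod.pow_card_sub_one_eq_one ha, one_pow, one_mul]
  have h0 : (x : ZMod p) ^ 2 - x * y + (y : ZMod p) ^ 2 = 0 := by
    have h1 := (ZMod.intCast_zmod_eq_zero_iff_dvd (x ^ 2 - x * y + y ^ 2) p).2 h
    push_cast at h1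
    exact h1
  have h3 : (x : ZMod p) ^ 3 = (-y) ^ 3 := by linear_combination ((x : ZMod p) + y) * h0
  have h4 : (x : ZMod p) = -y := by rw [← cub (x : ZMod p), h3, cub]
  have h5 : 3 * (y : ZMod p) ^ 2 = 0 := by
    rw [h4] at h0
    linear_combination h0
  have h6 : (3 : ZMod p) ≠ 0 := by
    intro h7
    have h8 : ((3 : ℕ) : ZMod p) = 0 := by exact_mod_cast h7
    rw [ZMod.natCast_eq_zero_iff] at h8
    have h9 := (Nat.prime_dvd_prime_iff_eq hp Nat.prime_three).1 h8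
    omega
  have hy : (y : ZMod p) = 0 := by
    rcases mul_eq_zero.1 h5 with h7 | h7
    · exact absurd h7 h6
    · exact (pow_eq_zero_iff two_ne_zero).1 h7
  refine ⟨(ZMod.intCast_zmod_eq_zero_iff_dvd x p).1 ?_, (ZMod.intCast_zmod_eq_zero_iff_dvd y p).1 hy⟩
  rw [h4, hy, neg_zero]

/-- the primes of a squarefree norm -/
theorem primes_one {m : ℕ} (hm : Squarefree m) {a b : ℤ} (h : nr (al a b) = m) :
    ∀ p : ℕ, p.Prime → p ∣ m → p % 3 = 1 := by
  intro p hp hpm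
  have e : nr (al a b) = (1 + 3 * a) ^ 2 - (1 + 3 * a) * (3 * b) + (3 * b) ^ 2 := rfl
  rw [h] at e
  have hpm' : (p : ℤ) ∣ (m : ℤ) := Int.natCast_dvd_natCast.2 hpm
  have h0 : p % 3 ≠ 0 := by
    intro h0
    have h1 : 3 ∣ p := Nat.dvd_of_mod_eq_zero h0
    have h2 : (3 : ℤ) ∣ (m : ℤ) := (Int.natCast_dvd_natCast.2 h1).trans hpm'
    rw [e] at h2
    have h3 : (1 + 3 * a) ^ 2 - (1 + 3 * a) * (3 * b) + (3 * b) ^ 2 =
        1 + 3 * (2 * a + 3 * a ^ 2 - b - 3 * a * b + 3 * b ^ 2) := by ring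
    rw [h3] at h2
    omega
  have h2 : p % 3 ≠ 2 := by
    intro h2
    rw [e] at hpm'
    obtain ⟨⟨u, hu⟩, ⟨v, hv⟩⟩ := inert hp h2 hpm'
    have h3 : (p : ℤ) * p ∣ (m : ℤ) := by
      rw [e, hu, hv]
      exact ⟨u ^ 2 - u * v + v ^ 2, by ring⟩
    have h4 : p * p ∣ m := by exact_mod_cast h3
    exact hp.one_lt.ne' (Nat.isUnit_iff.1 (hm p h4))
  omega

theorem fam (lbc : S_LBC) (lbn : S_LBN) (lbx : S_LBX) (cnt : S_CNT) : S_FAM := by
  classical
  obtain ⟨c, hc, P₀, h⟩ := lbc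
  refine ⟨c, hc, P₀, fun P hP => ?_⟩
  obtain ⟨hfin, hcard⟩ := h P hP
  refine hcard.trans (Nat.cast_le.2 ?_)
  have hF : (family P).Finite := (cnt P (fun _ => True) (fun _ _ _ => Iff.rfl)).1
  set G := (Finset.Icc 1 P).filter
    (fun m => Squarefree m ∧ ∀ p : ℕ, p.Prime → p ∣ m → p % 3 = 1) with hG
  set s := hfin.toFinset with hs
  set s' := hF.toFinset with hs'
  have hmaps : ∀ t ∈ s, (nr (al t.1 t.2)).toNat ∈ G := by
    intro t ht
    rw [hs, Set.Finite.mem_toFinset] at ht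
    obtain ⟨h1, h2⟩ := ht
    have h3 : ((nr (al t.1 t.2)).toNat : ℤ) = nr (al t.1 t.2) := Int.toNat_of_nonneg (nr_nonneg _)
    rw [hG, Finset.mem_filter, Finset.mem_Icc]
    refine ⟨⟨Nat.pos_of_ne_zero h2.ne_zero, by omega⟩, h2, primes_one h2 h3.symm⟩
  have hmaps' : ∀ χ ∈ s', χ.1 ∈ Finset.Icc 1 P := by
    intro χ hχ
    rw [hs', Set.Finite.mem_toFinset] at hχ
    exact Finset.mem_Icc.2 ⟨hχ.1, hχ.2.1⟩
  have e1 : {t : ℤ × ℤ | nr (al t.1 t.2) ≤ P ∧ Squarefree (nr (al t.1 t.2)).toNat}.ncard = s.card :=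
    Set.ncard_eq_toFinset_card _ hfin
  have e2 : (family P).ncard = s'.card := Set.ncard_eq_toFinset_card _ hF
  rw [e1, e2, Finset.card_eq_sum_card_fiberwise hmaps, Finset.card_eq_sum_card_fiberwise hmaps']
  calc ∑ m ∈ G, (s.filter fun t => (nr (al t.1 t.2)).toNat = m).card
      ≤ ∑ m ∈ G, 2 ^ m.primeFactors.card := by
        refine Finset.sum_le_sum fun m hm => ?_
        rw [hG, Finset.mem_filter] at hm
        obtain ⟨h1, h2⟩ := lbn m hm.2.1 hm.2.2
        refine le_trans ?_ h2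
        rw [← Set.ncard_coe_finset]
        refine Set.ncard_le_ncard ?_ h1
        intro t ht
        rw [Finset.mem_coe, Finset.mem_filter] at ht
        show nr (al t.1 t.2) = m
        have h3 : ((nr (al t.1 t.2)).toNat : ℤ) = nr (al t.1 t.2) :=
          Int.toNat_of_nonneg (nr_nonneg _)
        rw [← h3, ht.2]
    _ ≤ ∑ m ∈ G, (s'.filter fun χ => χ.1 = m).card := by
        refine Finset.sum_le_sum fun m hm => ?_
        rw [hG, Finset.mem_filter, Finset.mem_Icc] at hm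
        refine (lbx m hm.2.1 hm.2.2).trans ?_
        rw [← Set.ncard_image_of_injective _ (sigma_mk_injective (i := m)), ← Set.ncard_coe_finset]
        refine Set.ncard_le_ncard ?_ (Finset.finite_toSet _)
        rintro _ ⟨χ, hχ, rfl⟩
        rw [Finset.mem_coe, Finset.mem_filter, hs', Set.Finite.mem_toFinset]
        exact ⟨⟨hm.1.1, hm.1.2, hχ.1, hχ.2⟩, rfl⟩
    _ ≤ ∑ m ∈ Finset.Icc 1 P, (s'.filter fun χ => χ.1 = m).card :=
        Finset.sum_le_sum_of_subset (Finset.filter_subset _ _)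

end Pool.Agent.Q38.CC
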